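import Pool.Agent.H110R3.UF.Stmts

/-! Task Mat of the project H110-UF: calculus of matrices. -/

open CategoryTheory MonoidalCategory CategoryTheory.Limits
open scoped Matrix

universe v u

namespace Pool.Agent.H431R3.UF

open Pool.Agent.H110R3.UF

variable {C : Type u} [Category.{v} C] [Preadditive C] [Linear ℂ C] [MonoidalCategory C]

lemma coef_ne (K : Ctx C) {a b : Fin K.n} (h : a ≠ b) (g : K.S a ⟶ K.S b) : K.coef a b g = 0 := by
  have h0 : g = 0 := by rw [K.eq_coef a b g, K.dl_ne a b h, smul_zero]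
  rw [h0, map_zero]

lemma coef_comp (K : Ctx C) {a b c : Fin K.n} (g : K.S a ⟶ K.S b) (h : K.S b ⟶ K.S c) :
    K.coef a c (g ≫ h) = K.coef a b g * K.coef b c h := by
  by_cases hab : a = b
  · by_cases hbc : b = c
    · subst hab
      subst hbc
      have e1 := K.eq_coef _ _ g
      have e2 := K.eq_coef _ _ h
      have e3 : g ≫ h = (K.coef a a g * K.coef a a h) • K.dl a a := by
        rw [K.dl_self] at e1 e2
        calc g ≫ h = (K.coef a a g • 𝟙 (K.S a)) ≫ (K.coef a a h • 𝟙 (K.S a)) := by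
              rw [← e1, ← e2]
          _ = _ := by
              rw [Linear.smul_comp, Linear.comp_smul, Category.id_comp, smul_smul, K.dl_self]
      rw [e3, map_smul, K.coef_dl, if_pos rfl, smul_eq_mul, mul_one]
    · have h0 : h = 0 := by rw [K.eq_coef b c h, K.dl_ne b c hbc, smul_zero]
      rw [h0, comp_zero, map_zero, map_zero, mul_zero]
  · have h0 : g = 0 := by rw [K.eq_coef a b g, K.dl_ne a b hab, smul_zero]
    rw [h0, zero_comp, map_zero, map_zero, zero_mul]

lemma coef_inc_prj (K : Ctx C) (X : Pre K) (hX : X.Good) (i j : X.I) :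
    K.coef (X.s i) (X.s j) (X.inc i ≫ X.prj j) = if i = j then 1 else 0 := by
  rw [hX.ortho]
  split_ifs with h
  · subst h
    rw [K.coef_dl, if_pos rfl]
  · rw [map_zero]

lemma mat_comp (K : Ctx C) (X Y Z : Pre K) (f : X.X ⟶ Y.X) (g : Y.X ⟶ Z.X) (hY : Y.Good) :
    mat X Z (f ≫ g) = mat X Y f * mat Y Z g := by
  ext i k
  rw [Matrix.mul_apply]
  unfold mat
  have e : X.inc i ≫ (f ≫ g) ≫ Z.prj k =
      ∑ j, (X.inc i ≫ f ≫ Y.prj j) ≫ (Y.inc j ≫ g ≫ Z.prj k) := by
    calc X.inc i ≫ (f ≫ g) ≫ Z.prj k = (X.inc i ≫ f) ≫ 𝟙 Y.X ≫ (g ≫ Z.prj k) := by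
          rw [Category.id_comp]; simp only [Category.assoc]
      _ = (X.inc i ≫ f) ≫ (∑ j, Y.prj j ≫ Y.inc j) ≫ (g ≫ Z.prj k) := by rw [hY.total]
      _ = _ := by
          rw [Preadditive.sum_comp, Preadditive.comp_sum]
          apply Finset.sum_congr rfl
          intro j _
          simp only [Category.assoc]
  rw [e, map_sum]
  apply Finset.sum_congr rfl
  intro j _
  exact coef_comp K _ _

lemma rea_mat (K : Ctx C) (X Y : Pre K) (f : X.X ⟶ Y.X) (hX : X.Good) (hY : Y.Good) :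
    rea X Y (mat X Y f) = f := by
  unfold rea mat
  have e : ∀ i j, K.coef (X.s i) (Y.s j) (X.inc i ≫ f ≫ Y.prj j) •
      (X.prj i ≫ K.dl (X.s i) (Y.s j) ≫ Y.inc j) =
      (X.prj i ≫ X.inc i) ≫ f ≫ (Y.prj j ≫ Y.inc j) := by
    intro i j
    have h := K.eq_coef _ _ (X.inc i ≫ f ≫ Y.prj j)
    calc _ = X.prj i ≫ (K.coef (X.s i) (Y.s j) (X.inc i ≫ f ≫ Y.prj j) •
          K.dl (X.s i) (Y.s j)) ≫ Y.inc j := by
          rw [Linear.smul_comp, Linear.comp_smul]
      _ = X.prj i ≫ (X.inc i ≫ f ≫ Y.prj j) ≫ Y.inc j := by rw [← h]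
      _ = _ := by simp only [Category.assoc]
  simp only [e]
  calc _ = (∑ i, X.prj i ≫ X.inc i) ≫ f ≫ (∑ j, Y.prj j ≫ Y.inc j) := by
        rw [Preadditive.sum_comp]
        apply Finset.sum_congr rfl
        intro i _
        rw [Preadditive.comp_sum, Preadditive.comp_sum]
    _ = f := by rw [hX.total, hY.total, Category.id_comp, Category.comp_id]

lemma mat_ne (K : Ctx C) (X Y : Pre K) (f : X.X ⟶ Y.X) (i : X.I) (j : Y.I) (h : X.s i ≠ Y.s j) :
    mat X Y f i j = 0 := by
  unfold mat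
  exact coef_ne K h _

lemma mat_rea (K : Ctx C) (X Y : Pre K) (m : Matrix X.I Y.I ℂ) (i : X.I) (j : Y.I)
    (hX : X.Good) (hY : Y.Good) :
    mat X Y (rea X Y m) i j = if X.s i = Y.s j then m i j else 0 := by
  unfold mat rea
  have e : X.inc i ≫ (∑ k, ∑ l, m k l • (X.prj k ≫ K.dl (X.s k) (Y.s l) ≫ Y.inc l)) ≫ Y.prj j =
      ∑ k, ∑ l, m k l • ((X.inc i ≫ X.prj k) ≫ K.dl (X.s k) (Y.s l) ≫ (Y.inc l ≫ Y.prj j)) := by
    rw [Preadditive.sum_comp, Preadditive.comp_sum]
    apply Finset.sum_congr rfl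
    intro k _
    rw [Preadditive.sum_comp, Preadditive.comp_sum]
    apply Finset.sum_congr rfl
    intro l _
    rw [Linear.smul_comp, Linear.comp_smul]
    simp only [Category.assoc]
  rw [e, map_sum]
  simp only [map_sum, map_smul, smul_eq_mul, coef_comp, coef_inc_prj K X hX,
    coef_inc_prj K Y hY, K.coef_dl]
  rw [Finset.sum_eq_single i, Finset.sum_eq_single j]
  · rw [if_pos rfl, if_pos rfl]
    split_ifs <;> simp
  · intro l _ hl
    rw [if_neg hl]
    simp
  · intro h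
    exact absurd (Finset.mem_univ _) h
  · intro k _ hk
    apply Finset.sum_eq_zero
    intro l _
    rw [if_neg (fun h => hk h.symm)]
    simp
  · intro h
    exact absurd (Finset.mem_univ _) h

theorem taskMat : TaskMat.{v, u} := by
  intro C _ _ _ _ _ _ K
  refine ⟨?_, ?_, ?_, ?_, ?_, ?_⟩
  · intro X hX
    ext i j
    unfold mat
    rw [Category.id_comp, coef_inc_prj K X hX, Matrix.one_apply]
  · intro X Y Z f g hY
    exact mat_comp K X Y Z f g hY
  · intro X Y f hX hY
    exact rea_mat K X Y f hX hY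
  · intro X Y f i j h
    exact mat_ne K X Y f i j h
  · intro X Y m i j hX hY
    exact mat_rea K X Y m i j hX hY
  · intro X Y f hX hY
    ext i j
    unfold dagm
    rw [mat_rea K Y X _ i j hY hX]
    split_ifs with h
    · rfl
    · rw [Matrix.conjTranspose_apply, mat_ne K X Y f j i (fun h' => h h'.symm), star_zero]

end Pool.Agent.H431R3.UF
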